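import Pool.Agent.TH602.Turan.Swap

/-!
# Sunflower-free families that are closed under intersections or under unions

Let `F` be a family of subsets of a set with `n` elements without a sunflower of size `r`.

1. If `F` is closed under intersections, then `|F| ≤ ∑_{i ≤ r - 2} C(n, i)`.
2. If `F` is closed under unions, then `|F| ≤ ∑_{i < s} C(n, i)` for every `s` with `s² ≥ 2 r n`;
   this is `exp(O(√(r n) log n))`.
3. The bound in 2 cannot be replaced by a polynomial: for `n = s (s + 1) / 2` there is a union-closed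
   family with `2 ^ s` members and no sunflower of size `3`.
-/

set_option autoImplicit false

namespace Pool.Agent.Results.MP_cfd6ce_co.ClosedFamilies

open Finset

/-- No `r` different members of `F` have all the same pairwise intersection. -/
def SunflowerFree {α : Type} [DecidableEq α] (r : ℕ) (F : Finset (Finset α)) : Prop :=
  ∀ S : Finset (Finset α), S ⊆ F → S.card = r →
    ¬ ∃ K, ∀ A ∈ S, ∀ B ∈ S, A ≠ B → A ∩ B = K

variable {α : Type} [Fintype α] [DecidableEq α]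

omit [Fintype α] in
theorem not_free_of_le {r : ℕ} {F S : Finset (Finset α)} (hS : S ⊆ F) (hr : r ≤ S.card)
    (K : Finset α) (hK : ∀ A ∈ S, ∀ B ∈ S, A ≠ B → A ∩ B = K) : ¬ SunflowerFree r F := by
  intro h
  obtain ⟨S', hS', hc⟩ := exists_subset_card_eq hr
  exact h S' (hS'.trans hS) hc ⟨K, fun A hA B hB => hK A (hS' hA) B (hS' hB)⟩

theorem exists_shattered (F : Finset (Finset α)) (s : ℕ)
    (h : ∑ i ∈ range s, (Fintype.card α).choose i < F.card) : ∃ T, F.Shatters T ∧ s ≤ T.card := by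
  have hvc : s ≤ F.vcDim := by
    by_contra hlt
    push Not at hlt
    have h1 := (card_le_card_shatterer F).trans (card_shatterer_le_sum_vcDim (𝒜 := F))
    have h2 : ∑ k ∈ Iic F.vcDim, (Fintype.card α).choose k ≤
        ∑ i ∈ range s, (Fintype.card α).choose i := by
      apply sum_le_sum_of_subset
      intro k hk
      rw [mem_Iic] at hk
      rw [mem_range]
      omega
    omega
  have hne : F.shatterer.Nonempty := by
    refine ⟨∅, ?_⟩
    rw [mem_shatterer, shatters_empty, ← card_pos]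
    omega
  obtain ⟨T, hT1, hT2⟩ := exists_mem_eq_sup F.shatterer hne card
  refine ⟨T, mem_shatterer.1 hT1, ?_⟩
  have : F.vcDim = T.card := hT2
  omega

/-- Members of `F` above `x` separate the points of `T`. -/
def Ind (F : Finset (Finset α)) (T x : Finset α) : Prop :=
  (∃ u ∈ F, x ⊆ u ∧ T ⊆ u) ∧ ∀ i ∈ T, ∃ y ∈ F, x ⊆ y ∧ i ∉ y ∧ T.erase i ⊆ y

theorem part1 (r : ℕ) (F : Finset (Finset α)) (hF : ∀ A ∈ F, ∀ B ∈ F, A ∩ B ∈ F)
    (hfree : SunflowerFree r F) :
    F.card ≤ ∑ i ∈ range (r - 1), (Fintype.card α).choose i := by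
  classical
  by_contra hcon
  push Not at hcon
  obtain ⟨T, hT, hTr⟩ := exists_shattered F (r - 1) hcon
  -- the intersection of all members
  have hinter : ∀ S : Finset (Finset α), S ⊆ F → S.Nonempty →
      (univ.filter fun q => ∀ A ∈ S, q ∈ A) ∈ F := by
    intro S
    induction S using Finset.induction_on with
    | empty => intro _ h; simp at h
    | insert A S hA ih =>
      intro hS _
      by_cases hne : S.Nonempty
      · have h1 := ih (fun x hx => hS (mem_insert_of_mem hx)) hne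
        have h2 := hF _ (hS (mem_insert_self A S)) _ h1
        convert h2 using 1
        ext q
        simp
      · rw [not_nonempty_iff_eq_empty] at hne
        subst hne
        convert hS (mem_insert_self A ∅) using 1
        ext q
        simp
  have hFne : F.Nonempty := hT.nonempty
  obtain ⟨x, hxm, hmax⟩ := exists_max_image (F.filter fun x => Ind F T x) card (by
    refine ⟨univ.filter fun q => ∀ A ∈ F, q ∈ A, mem_filter.2 ⟨hinter F subset_rfl hFne, ?_, ?_⟩⟩
    · obtain ⟨u, hu, hTu⟩ := hT.exists_superset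
      exact ⟨u, hu, fun q hq => (mem_filter.1 hq).2 u hu, hTu⟩
    · intro i hi
      obtain ⟨y, hy, hyT⟩ := hT (erase_subset i T)
      refine ⟨y, hy, fun q hq => (mem_filter.1 hq).2 y hy, fun h => ?_, ?_⟩
      · have : i ∈ T ∩ y := mem_inter.2 ⟨hi, h⟩
        rw [hyT] at this
        simp at this
      · intro q hq
        rw [← hyT] at hq
        exact (mem_inter.1 hq).2)
  rw [mem_filter] at hxm
  obtain ⟨hxF, ⟨u, huF, hxu, hTu⟩, hy⟩ := hxm
  -- the closure of `x ∪ {j}`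
  set cl : α → Finset α := fun j => univ.filter fun q => ∀ A ∈ F.filter (fun y => x ⊆ y ∧ j ∈ y),
    q ∈ A with hcl
  have hclF : ∀ j ∈ T, cl j ∈ F := fun j hj => hinter _ (filter_subset _ _)
    ⟨u, mem_filter.2 ⟨huF, hxu, hTu hj⟩⟩
  have hcl_le : ∀ j, ∀ y ∈ F, x ⊆ y → j ∈ y → cl j ⊆ y := by
    intro j y hyF hxy hjy q hq
    exact (mem_filter.1 hq).2 y (mem_filter.2 ⟨hyF, hxy, hjy⟩)
  have hxcl : ∀ j, x ⊆ cl j := by
    intro j q hq
    exact mem_filter.2 ⟨mem_univ _, fun A hA => (mem_filter.1 hA).2.1 hq⟩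
  have hjcl : ∀ j, j ∈ cl j := fun j =>
    mem_filter.2 ⟨mem_univ _, fun A hA => (mem_filter.1 hA).2.2⟩
  have hxT : ∀ i ∈ T, i ∉ x := by
    intro i hi h
    obtain ⟨y, _, hxy, hiy, _⟩ := hy i hi
    exact hiy (hxy h)
  -- minimal members between `x` and `cl j`
  have hz : ∀ j ∈ T, ∃ z ∈ F, x ⊂ z ∧ z ⊆ cl j ∧ ∀ z' ∈ F, x ⊂ z' → z' ⊆ cl j →
      z.card ≤ z'.card := by
    intro j hj
    obtain ⟨z, hz, hzmin⟩ := exists_min_image (F.filter fun z => x ⊂ z ∧ z ⊆ cl j) card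
      ⟨cl j, mem_filter.2 ⟨hclF j hj, ⟨hxcl j, fun h => hxT j hj (h (hjcl j))⟩, subset_rfl⟩⟩
    rw [mem_filter] at hz
    exact ⟨z, hz.1, hz.2.1, hz.2.2, fun z' h1 h2 h3 => hzmin z' (mem_filter.2 ⟨h1, h2, h3⟩)⟩
  choose! z hzF hxz hzcl hzmin using hz
  have hne : ∀ j ∈ T, ∀ k ∈ T, j ≠ k → z j ≠ z k := by
    intro j hj k hk hjk heq
    have hInd : Ind F T (z j) := by
      refine ⟨⟨u, huF, (hzcl j hj).trans (hcl_le j u huF hxu (hTu hj)), hTu⟩, ?_⟩
      intro i hi
      obtain ⟨y, hyF, hxy, hiy, hTy⟩ := hy i hi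
      refine ⟨y, hyF, ?_, hiy, hTy⟩
      by_cases hij : i = j
      · subst hij
        rw [heq]
        exact (hzcl k hk).trans (hcl_le k y hyF hxy (hTy (mem_erase.2 ⟨fun h => hjk h.symm, hk⟩)))
      · exact (hzcl j hj).trans (hcl_le j y hyF hxy (hTy (mem_erase.2 ⟨fun h => hij h.symm, hj⟩)))
    have h1 := hmax (z j) (mem_filter.2 ⟨hzF j hj, hInd⟩)
    have h2 := card_lt_card (hxz j hj)
    omega
  have hint : ∀ j ∈ T, ∀ k ∈ T, j ≠ k → z j ∩ z k = x := by
    intro j hj k hk hjk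
    by_contra hcon2
    have h1 : x ⊆ z j ∩ z k := subset_inter (hxz j hj).1 (hxz k hk).1
    have h2 : x ⊂ z j ∩ z k := ⟨h1, fun h => hcon2 (Subset.antisymm h h1)⟩
    have h3 := hF _ (hzF j hj) _ (hzF k hk)
    have h4 := hzmin j hj _ h3 h2 (inter_subset_left.trans (hzcl j hj))
    have h5 := hzmin k hk _ h3 h2 (inter_subset_right.trans (hzcl k hk))
    have h6 : z j ∩ z k = z j := eq_of_subset_of_card_le inter_subset_left h4
    have h7 : z j ∩ z k = z k := eq_of_subset_of_card_le inter_subset_right h5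
    exact hne j hj k hk hjk (h6.symm.trans h7)
  have hxim : x ∉ T.image z := by
    intro h
    obtain ⟨j, hj, hjx⟩ := mem_image.1 h
    have := (hxz j hj).2
    rw [hjx] at this
    exact this subset_rfl
  refine not_free_of_le (S := insert x (T.image z)) (r := r) ?_ ?_ x ?_ hfree
  · intro A hA
    rcases mem_insert.1 hA with rfl | hA
    · exact hxF
    · obtain ⟨j, hj, rfl⟩ := mem_image.1 hA
      exact hzF j hj
  · rw [card_insert_of_notMem hxim, card_image_of_injOn (fun j hj k hk h => by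
      by_contra hjk
      exact hne j (mem_coe.1 hj) k (mem_coe.1 hk) hjk h)]
    omega
  · intro A hA B hB hAB
    rcases mem_insert.1 hA with hA | hA <;> rcases mem_insert.1 hB with hB | hB
    · exact absurd (hA.trans hB.symm) hAB
    · obtain ⟨j, hj, rfl⟩ := mem_image.1 hB
      rw [hA]
      exact inter_eq_left.2 (hxz j hj).1
    · obtain ⟨j, hj, rfl⟩ := mem_image.1 hA
      rw [hB]
      exact inter_eq_right.2 (hxz j hj).1
    · obtain ⟨j, hj, rfl⟩ := mem_image.1 hA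
      obtain ⟨k, hk, rfl⟩ := mem_image.1 hB
      exact hint j hj k hk (fun h => hAB (by rw [h]))

/-- An intersection-closed family shattering a set contains the upper part of a cube with disjoint
blocks. -/
theorem cube2 (𝒜 : Finset (Finset α)) (h𝒜 : ∀ x ∈ 𝒜, ∀ y ∈ 𝒜, x ∩ y ∈ 𝒜) (T : Finset α)
    (hT : 𝒜.Shatters T) :
    ∃ (T' : Finset α) (w : Finset α → Finset α), T.card ^ 2 ≤ T'.card * (2 * Fintype.card α) ∧
      (∀ S, S ⊆ T' → w S ∈ 𝒜) ∧ (∀ S, S ⊆ T' → ∀ i ∈ T', i ∈ w S ↔ i ∉ S) ∧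
      (∀ j ∈ T', ∀ k ∈ T', j ≠ k → w {j} ∪ w {k} = w ∅) := by
  obtain ⟨u, hu, hTu⟩ := hT.exists_superset
  have hc : ∀ i ∈ T, ∃ c ∈ 𝒜, T ∩ c = T.erase i := fun i _ => hT (erase_subset i T)
  choose! c hc𝒜 hcT using hc
  have hw : ∀ S : Finset α, S ⊆ T → (u.filter fun q => ∀ i ∈ S, q ∈ c i) ∈ 𝒜 := by
    intro S
    induction S using Finset.induction_on with
    | empty =>
      intro _
      have : (u.filter fun q => ∀ i ∈ (∅ : Finset α), q ∈ c i) = u := by
        rw [filter_eq_self]; simp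
      rw [this]; exact hu
    | insert i S hi ih =>
      intro hS
      have h1 := ih (fun x hx => hS (mem_insert_of_mem hx))
      have h2 := h𝒜 _ h1 _ (hc𝒜 i (hS (mem_insert_self i S)))
      have h3 : (u.filter fun q => ∀ j ∈ insert i S, q ∈ c j) =
          (u.filter fun q => ∀ j ∈ S, q ∈ c j) ∩ c i := by
        ext q
        simp only [mem_filter, mem_inter, mem_insert, forall_eq_or_imp]
        tauto
      rw [h3]; exact h2
  set N : α → Finset α := fun q => T.filter fun i => q ∉ c i with hN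
  have hNT : ∀ q ∈ T, ∀ i ∈ T, q ∉ c i → i = q := by
    intro q hq i hi h
    by_contra hne
    have : q ∈ T.erase i := mem_erase.2 ⟨fun h => hne h.symm, hq⟩
    rw [← hcT i hi, mem_inter] at this
    exact h this.2
  have hself : ∀ i ∈ T, i ∉ c i := by
    intro i hi h
    have : i ∈ T.erase i := by rw [← hcT i hi, mem_inter]; exact ⟨hi, h⟩
    simp at this
  obtain ⟨T', hT'T, hind, hcard⟩ := Pool.Agent.TH602.Turan.Swap.indep N T.card T
    (univ.filter fun q => 2 ≤ (N q).card) rfl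
    (fun q hq => ⟨(mem_filter.1 hq).2, filter_subset _ _⟩)
  have hQ : (univ.filter fun q => 2 ≤ (N q).card).card + T.card ≤ Fintype.card α := by
    rw [← card_union_of_disjoint, ← card_univ]
    · exact card_le_card (subset_univ _)
    · rw [disjoint_left]
      intro q hq hqT
      have h1 := (mem_filter.1 hq).2
      have h2 : N q ⊆ {q} := by
        intro i hi
        rw [hN, mem_filter] at hi
        simpa using hNT q hqT i hi.1 hi.2
      have := card_le_card h2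
      rw [card_singleton] at this
      omega
  refine ⟨T', fun S => u.filter fun q => ∀ i ∈ (T \ T') ∪ S, q ∈ c i, ?_, ?_, ?_, ?_⟩
  · refine hcard.trans (Nat.mul_le_mul_left _ (by omega))
  · intro S hS
    exact hw _ (union_subset sdiff_subset (hS.trans hT'T))
  · intro S hS i hi
    simp only [mem_filter]
    constructor
    · rintro ⟨_, h⟩ hiS
      exact hself i (hT'T hi) (h i (mem_union_right _ hiS))
    · intro hiS
      refine ⟨hTu (hT'T hi), fun j hj => ?_⟩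
      by_contra hcon
      have hjT : j ∈ T := by
        rcases mem_union.1 hj with h | h
        · exact (mem_sdiff.1 h).1
        · exact hT'T (hS h)
      have hji := hNT i (hT'T hi) j hjT hcon
      subst hji
      rcases mem_union.1 hj with h | h
      · exact (mem_sdiff.1 h).2 hi
      · exact hiS h
  · intro j hj k hk hjk
    ext q
    simp only [mem_union, mem_filter, mem_sdiff, mem_singleton]
    constructor
    · rintro (⟨h1, h2⟩ | ⟨h1, h2⟩)
      · exact ⟨h1, fun i hi => h2 i (Or.inl (by simpa using hi))⟩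
      · exact ⟨h1, fun i hi => h2 i (Or.inl (by simpa using hi))⟩
    · rintro ⟨hqu, hq⟩
      by_contra hcon
      push Not at hcon
      obtain ⟨hA, hB⟩ := hcon
      obtain ⟨i, hi, hi'⟩ := hA hqu
      obtain ⟨l, hl, hl'⟩ := hB hqu
      have hqj : q ∉ c j := by
        rcases hi with hi | hi
        · exact absurd (hq i (Or.inl hi)) hi'
        · rwa [hi] at hi'
      have hqk : q ∉ c k := by
        rcases hl with hl | hl
        · exact absurd (hq l (Or.inl hl)) hl'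
        · rwa [hl] at hl'
      have h2 : 2 ≤ (N q).card := by
        have : ({j, k} : Finset α) ⊆ N q := by
          intro x hx
          rw [hN, mem_filter]
          rcases mem_insert.1 hx with rfl | hx
          · exact ⟨hT'T hj, hqj⟩
          · rw [mem_singleton] at hx; rw [hx]; exact ⟨hT'T hk, hqk⟩
        have := card_le_card this
        rwa [card_pair hjk] at this
      have h3 := hind q (by rw [mem_filter]; exact ⟨mem_univ _, h2⟩)
      apply h3
      intro l' hl'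
      rw [hN, mem_filter] at hl'
      by_contra hlT'
      exact hl'.2 (hq l' (Or.inl ⟨hl'.1, hlT'⟩))

theorem part2 (r s : ℕ) (F : Finset (Finset α)) (hF : ∀ A ∈ F, ∀ B ∈ F, A ∪ B ∈ F)
    (hfree : SunflowerFree r F) (hn : 0 < Fintype.card α) (hs : 2 * r * Fintype.card α ≤ s ^ 2) :
    F.card ≤ ∑ i ∈ range s, (Fintype.card α).choose i := by
  classical
  by_contra hcon
  push Not at hcon
  set 𝒜 := F.image compl with h𝒜
  have hcard : 𝒜.card = F.card := card_image_of_injective F compl_injective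
  rw [← hcard] at hcon
  obtain ⟨T, hT, hTs⟩ := exists_shattered 𝒜 s hcon
  have hcl : ∀ x ∈ 𝒜, ∀ y ∈ 𝒜, x ∩ y ∈ 𝒜 := by
    intro x hx y hy
    obtain ⟨A, hA, rfl⟩ := mem_image.1 hx
    obtain ⟨B, hB, rfl⟩ := mem_image.1 hy
    exact mem_image.2 ⟨A ∪ B, hF A hA B hB, by rw [compl_union]⟩
  obtain ⟨T', w, hbig, hw1, hw2, hw3⟩ := cube2 𝒜 hcl T hT
  have hT'r : r ≤ T'.card := by
    have h1 : 2 * r * Fintype.card α ≤ T'.card * (2 * Fintype.card α) :=
      hs.trans ((Nat.pow_le_pow_left hTs 2).trans hbig)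
    have h2 : r * (2 * Fintype.card α) ≤ T'.card * (2 * Fintype.card α) := by
      calc r * (2 * Fintype.card α) = 2 * r * Fintype.card α := by ring
        _ ≤ _ := h1
    exact Nat.le_of_mul_le_mul_right h2 (by omega)
  have hsing : ∀ j ∈ T', ({j} : Finset α) ⊆ T' := fun j hj => by simpa using hj
  have hne : ∀ j ∈ T', ∀ k ∈ T', j ≠ k → (w {j})ᶜ ≠ (w {k})ᶜ := by
    intro j hj k hk hjk h
    have h1 : w {j} = w {k} := compl_injective h
    have h2 := (hw2 {j} (hsing j hj) k hk).2 (by simpa using fun h => hjk h.symm)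
    rw [h1] at h2
    exact (hw2 {k} (hsing k hk) k hk).1 h2 (by simp)
  refine not_free_of_le (S := T'.image fun j => (w {j})ᶜ) (r := r) ?_ ?_ (w ∅)ᶜ ?_ hfree
  · intro A hA
    obtain ⟨j, hj, rfl⟩ := mem_image.1 hA
    obtain ⟨B, hB, hB'⟩ := mem_image.1 (hw1 {j} (hsing j hj))
    rw [← hB', compl_compl]
    exact hB
  · rw [card_image_of_injOn (fun j hj k hk h => by
      by_contra hjk
      exact hne j (mem_coe.1 hj) k (mem_coe.1 hk) hjk h)]
    exact hT'r
  · intro A hA B hB hAB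
    obtain ⟨j, hj, rfl⟩ := mem_image.1 hA
    obtain ⟨k, hk, rfl⟩ := mem_image.1 hB
    have hjk : j ≠ k := fun h => hAB (by rw [h])
    rw [← compl_union, hw3 j hj k hk hjk]

theorem logic0 (pi qi ri pj qj rj k : Prop) (g1 : ((pi ∨ pj) ∧ (qi ∨ qj)) ↔ k)
    (g2 : ((pi ∨ pj) ∧ (ri ∨ rj)) ↔ k) (g3 : ((qi ∨ qj) ∧ (ri ∨ rj)) ↔ k) :
    ¬ ((pi ∧ ¬ qi ∧ ¬ ri) ∧ (qj ∧ ¬ pj ∧ ¬ rj)) ∧ ¬ ((pi ∧ ¬ qi ∧ ¬ ri) ∧ (rj ∧ ¬ pj ∧ ¬ qj)) ∧
      ¬ ((qi ∧ ¬ pi ∧ ¬ ri) ∧ (rj ∧ ¬ pj ∧ ¬ qj)) := by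
  refine ⟨?_, ?_, ?_⟩
  · rintro ⟨⟨h1, h2, h3⟩, h4, h5, h6⟩
    have hk : k := g1.1 ⟨Or.inl h1, Or.inr h4⟩
    rcases (g2.2 hk).2 with h | h
    · exact h3 h
    · exact h6 h
  · rintro ⟨⟨h1, h2, h3⟩, h4, h5, h6⟩
    have hk : k := g2.1 ⟨Or.inl h1, Or.inr h4⟩
    rcases (g1.2 hk).2 with h | h
    · exact h2 h
    · exact h6 h
  · rintro ⟨⟨h1, h2, h3⟩, h4, h5, h6⟩
    have hk : k := g3.1 ⟨Or.inl h1, Or.inr h4⟩
    rcases (g1.2 hk).1 with h | h
    · exact h2 h
    · exact h5 h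

theorem logic1 (p q r : Prop) (h1 : p ∧ q ↔ p ∧ r) (h2 : p ∧ q ↔ q ∧ r) (h : ¬ (p ↔ q)) :
    (p ∧ ¬ q ∧ ¬ r) ∨ (q ∧ ¬ p ∧ ¬ r) := by
  by_cases hp : p <;> by_cases hq : q <;> by_cases hr : r <;> simp_all

theorem logic2 (p q r : Prop) (h1 : p ∧ q ↔ p ∧ r) (h2 : p ∧ q ↔ q ∧ r) (h : ¬ (p ↔ r)) :
    (p ∧ ¬ q ∧ ¬ r) ∨ (r ∧ ¬ p ∧ ¬ q) := by
  by_cases hp : p <;> by_cases hq : q <;> by_cases hr : r <;> simp_all

theorem logic3 (p q r : Prop) (h1 : p ∧ q ↔ p ∧ r) (h2 : p ∧ q ↔ q ∧ r) (h : ¬ (q ↔ r)) :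
    (q ∧ ¬ p ∧ ¬ r) ∨ (r ∧ ¬ p ∧ ¬ q) := by
  by_cases hp : p <;> by_cases hq : q <;> by_cases hr : r <;> simp_all

theorem part3 (s : ℕ) : ∃ F : Finset (Finset (Sym2 (Fin s))),
    (∀ A ∈ F, ∀ B ∈ F, A ∪ B ∈ F) ∧ SunflowerFree 3 F ∧ F.card = 2 ^ s := by
  classical
  set E : Finset (Fin s) → Finset (Sym2 (Fin s)) := fun I => univ.filter fun e => ∃ i ∈ I, i ∈ e
    with hE
  have hdiag : ∀ (I : Finset (Fin s)) (i : Fin s), s(i, i) ∈ E I ↔ i ∈ I := by
    intro I i
    simp [hE]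
  have hpair : ∀ (I : Finset (Fin s)) (i j : Fin s), s(i, j) ∈ E I ↔ i ∈ I ∨ j ∈ I := by
    intro I i j
    simp only [hE, mem_filter, mem_univ, true_and, Sym2.mem_iff]
    constructor
    · rintro ⟨a, ha, rfl | rfl⟩
      · exact Or.inl ha
      · exact Or.inr ha
    · rintro (h | h)
      · exact ⟨i, h, Or.inl rfl⟩
      · exact ⟨j, h, Or.inr rfl⟩
  have hinj : Function.Injective E := by
    intro I I' h
    ext i
    rw [← hdiag I, ← hdiag I', h]
  refine ⟨univ.image E, ?_, ?_, ?_⟩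
  · intro A hA B hB
    obtain ⟨I, _, rfl⟩ := mem_image.1 hA
    obtain ⟨J, _, rfl⟩ := mem_image.1 hB
    refine mem_image.2 ⟨I ∪ J, mem_univ _, ?_⟩
    ext e
    simp only [hE, mem_filter, mem_univ, true_and, mem_union]
    constructor
    · rintro ⟨i, hi | hi, hie⟩
      · exact Or.inl ⟨i, hi, hie⟩
      · exact Or.inr ⟨i, hi, hie⟩
    · rintro (⟨i, hi, hie⟩ | ⟨i, hi, hie⟩)
      · exact ⟨i, Or.inl hi, hie⟩
      · exact ⟨i, Or.inr hi, hie⟩
  · rintro S hS hc ⟨K, hK⟩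
    obtain ⟨A, B, C, hAB, hAC, hBC, rfl⟩ := card_eq_three.1 hc
    obtain ⟨I, _, rfl⟩ := mem_image.1 (hS (by simp : A ∈ ({A, B, C} : Finset _)))
    obtain ⟨J, _, rfl⟩ := mem_image.1 (hS (by simp : B ∈ ({_, B, C} : Finset _)))
    obtain ⟨L, _, rfl⟩ := mem_image.1 (hS (by simp : C ∈ ({_, _, C} : Finset _)))
    have h1 : ∀ e, (e ∈ E I ∧ e ∈ E J) ↔ e ∈ K := fun e => by
      rw [← hK (E I) (by simp) (E J) (by simp) hAB, mem_inter]
    have h2 : ∀ e, (e ∈ E I ∧ e ∈ E L) ↔ e ∈ K := fun e => by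
      rw [← hK (E I) (by simp) (E L) (by simp) hAC, mem_inter]
    have h3 : ∀ e, (e ∈ E J ∧ e ∈ E L) ↔ e ∈ K := fun e => by
      rw [← hK (E J) (by simp) (E L) (by simp) hBC, mem_inter]
    -- two private elements are impossible
    have key : ∀ i j : Fin s, ¬ ((i ∈ I ∧ i ∉ J ∧ i ∉ L) ∧ (j ∈ J ∧ j ∉ I ∧ j ∉ L)) ∧
        ¬ ((i ∈ I ∧ i ∉ J ∧ i ∉ L) ∧ (j ∈ L ∧ j ∉ I ∧ j ∉ J)) ∧
        ¬ ((i ∈ J ∧ i ∉ I ∧ i ∉ L) ∧ (j ∈ L ∧ j ∉ I ∧ j ∉ J)) := by
      intro i j
      have g1 := h1 s(i, j)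
      have g2 := h2 s(i, j)
      have g3 := h3 s(i, j)
      rw [hpair, hpair] at g1 g2 g3
      exact logic0 _ _ _ _ _ _ _ g1 g2 g3
    have hcell : ∀ i, (i ∈ I ∧ i ∈ J ↔ i ∈ I ∧ i ∈ L) ∧ (i ∈ I ∧ i ∈ J ↔ i ∈ J ∧ i ∈ L) := by
      intro i
      have g1 := h1 s(i, i)
      have g2 := h2 s(i, i)
      have g3 := h3 s(i, i)
      rw [hdiag, hdiag] at g1 g2 g3
      exact ⟨g1.trans g2.symm, g1.trans g3.symm⟩
    have hIJ : ∃ i, ¬ (i ∈ I ↔ i ∈ J) := by
      by_contra hcon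
      push Not at hcon
      exact hAB (congrArg E (by ext i; exact hcon i))
    have hIL : ∃ i, ¬ (i ∈ I ↔ i ∈ L) := by
      by_contra hcon
      push Not at hcon
      exact hAC (congrArg E (by ext i; exact hcon i))
    have hJL : ∃ i, ¬ (i ∈ J ↔ i ∈ L) := by
      by_contra hcon
      push Not at hcon
      exact hBC (congrArg E (by ext i; exact hcon i))
    obtain ⟨a, ha⟩ := hIJ
    obtain ⟨b, hb⟩ := hIL
    obtain ⟨c, hc'⟩ := hJL
    rcases logic1 _ _ _ (hcell a).1 (hcell a).2 ha with pa | pa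
    · rcases logic3 _ _ _ (hcell c).1 (hcell c).2 hc' with pc | pc
      · exact (key a c).1 ⟨pa, pc⟩
      · exact (key a c).2.1 ⟨pa, pc⟩
    · rcases logic2 _ _ _ (hcell b).1 (hcell b).2 hb with pb | pb
      · exact (key b a).1 ⟨pb, pa⟩
      · exact (key a b).2.2 ⟨pa, pb⟩
  · rw [card_image_of_injective _ hinj, card_univ, Fintype.card_finset, Fintype.card_fin]

/-- **Sunflower-free families closed under intersections or unions.** -/
theorem result :
    -- 1. intersection-closed families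
    (∀ (α : Type) [Fintype α] [DecidableEq α] (r : ℕ) (F : Finset (Finset α)),
      (∀ A ∈ F, ∀ B ∈ F, A ∩ B ∈ F) → SunflowerFree r F →
      F.card ≤ ∑ i ∈ range (r - 1), (Fintype.card α).choose i) ∧
    -- 2. union-closed families
    (∀ (α : Type) [Fintype α] [DecidableEq α] (r s : ℕ) (F : Finset (Finset α)),
      (∀ A ∈ F, ∀ B ∈ F, A ∪ B ∈ F) → SunflowerFree r F → 0 < Fintype.card α →
      2 * r * Fintype.card α ≤ s ^ 2 →
      F.card ≤ ∑ i ∈ range s, (Fintype.card α).choose i) ∧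
    -- 3. a lower bound for union-closed families
    (∀ s : ℕ, ∃ F : Finset (Finset (Sym2 (Fin s))),
      (∀ A ∈ F, ∀ B ∈ F, A ∪ B ∈ F) ∧ SunflowerFree 3 F ∧ F.card = 2 ^ s) :=
  ⟨fun _ _ _ r F h1 h2 => part1 r F h1 h2, fun _ _ _ r s F h1 h2 h3 h4 => part2 r s F h1 h2 h3 h4,
    part3⟩

end Pool.Agent.Results.MP_cfd6ce_co.ClosedFamilies
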