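import Pool.Agent.W967.SK.Words
import Pool.Agent.W967.SK.Num2

/-!
# Sunflower-free families with many symmetries
-/

set_option autoImplicit false
set_option linter.unusedSectionVars false

namespace Pool.Agent.Results.MP_cfd6ce_co.LargeSymmetry

open Finset Equiv

/-- The family `F` contains a sunflower of size `r`: `r` distinct members such that every point
lies in `0`, `1` or `r` of them. -/
def HasSunflower (r n : ℕ) (F : Finset (Finset (Fin n))) : Prop :=
  ∃ S : Fin r → Finset (Fin n), Function.Injective S ∧ (∀ i, S i ∈ F) ∧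
    ∀ x : Fin n, (univ.filter (fun i => x ∈ S i)).card ≤ 1 ∨
      (univ.filter (fun i => x ∈ S i)).card = r

/-- `F` is invariant under the permutation `σ` of the ground set. -/
def Inv {n : ℕ} (σ : Perm (Fin n)) (F : Finset (Finset (Fin n))) : Prop :=
  ∀ A ∈ F, A.map σ.toEmbedding ∈ F

lemma mem_swap {n : ℕ} {A : Finset (Fin n)} {i j z : Fin n} :
    z ∈ A.map (swap i j).toEmbedding ↔ swap i j z ∈ A := by
  rw [Finset.mem_map_equiv, symm_swap]

/-- The members of a sunflower-free family which is symmetric on `C` are almost full or empty on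
`C`. -/
lemma core {r n : ℕ} (F : Finset (Finset (Fin n))) (hF : ¬ HasSunflower (r + 1) n F)
    (C : Finset (Fin n)) (hC : ∀ i ∈ C, ∀ j ∈ C, Inv (swap i j) F) (A : Finset (Fin n))
    (hA : A ∈ F) (x : Fin n) (hxC : x ∈ C) (hxA : x ∈ A) : (C \ A).card < r := by
  by_contra hcon
  push Not at hcon
  obtain ⟨T, hT, hTr⟩ := Finset.exists_subset_card_eq hcon
  let y : Fin r → Fin n := fun j => (T.equivFin.symm (Fin.cast hTr.symm j) : Fin n)
  have hyinj : Function.Injective y := by
    intro j l h
    have h1 := T.equivFin.symm.injective (Subtype.ext h)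
    exact Fin.ext (by simpa using congrArg Fin.val h1)
  have hy : ∀ j, y j ∈ C \ A := fun j => hT (T.equivFin.symm (Fin.cast hTr.symm j)).2
  have hyC : ∀ j, y j ∈ C := fun j => (Finset.mem_sdiff.1 (hy j)).1
  have hyA : ∀ j, y j ∉ A := fun j => (Finset.mem_sdiff.1 (hy j)).2
  have hxy : ∀ j, x ≠ y j := fun j h => hyA j (h ▸ hxA)
  let S : Fin (r + 1) → Finset (Fin n) :=
    Fin.cons A (fun j => A.map (swap x (y j)).toEmbedding)
  have hS0 : S 0 = A := rfl
  have hSs : ∀ j : Fin r, S j.succ = A.map (swap x (y j)).toEmbedding := fun j => rfl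
  have hx_not : ∀ j : Fin r, x ∉ S j.succ := by
    intro j
    rw [hSs, mem_swap, swap_apply_left]
    exact hyA j
  have hmem : ∀ (j : Fin r) (z : Fin n), z ≠ x → z ∉ A → (z ∈ S j.succ ↔ z = y j) := by
    intro j z hzx hzA
    rw [hSs, mem_swap]
    constructor
    · intro h
      by_contra hzy
      rw [swap_apply_of_ne_of_ne hzx hzy] at h
      exact hzA h
    · rintro rfl
      rw [swap_apply_right]
      exact hxA
  have hall : ∀ (i : Fin (r + 1)) (z : Fin n), z ≠ x → z ∈ A → z ∈ S i := by
    intro i z hzx hzA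
    refine Fin.cases ?_ (fun j => ?_) i
    · rw [hS0]
      exact hzA
    · rw [hSs, mem_swap, swap_apply_of_ne_of_ne hzx (fun h => hyA j (by rw [← h]; exact hzA))]
      exact hzA
  apply hF
  refine ⟨S, ?_, ?_, ?_⟩
  · intro i l h
    revert h
    refine Fin.cases (fun h => ?_) (fun j h => ?_) i
    · revert h
      refine Fin.cases (fun _ => rfl) (fun l h => ?_) l
      exact absurd (by rw [← h, hS0]; exact hxA) (hx_not l)
    · revert h
      refine Fin.cases (fun h => ?_) (fun l h => ?_) l
      · exact absurd (by rw [h, hS0]; exact hxA) (hx_not j)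
      · have h1 : y j ∈ S j.succ := (hmem j (y j) (hxy j).symm (hyA j)).2 rfl
        rw [h] at h1
        have h2 := (hmem l (y j) (hxy j).symm (hyA j)).1 h1
        rw [hyinj h2]
  · intro i
    refine Fin.cases ?_ (fun j => ?_) i
    · exact hA
    · exact hC x hxC (y j) (hyC j) A hA
  · intro z
    by_cases hzA : z ∈ A
    · by_cases hzx : z = x
      · subst hzx
        left
        rw [Finset.card_le_one]
        have key : ∀ i : Fin (r + 1), z ∈ S i → i = 0 := by
          intro i
          refine Fin.cases (fun _ => rfl) (fun j h => absurd h (hx_not j)) i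
        intro i hi l hl
        rw [key i (Finset.mem_filter.1 hi).2, key l (Finset.mem_filter.1 hl).2]
      · right
        rw [Finset.filter_true_of_mem (fun i _ => hall i z hzx hzA), Finset.card_univ,
          Fintype.card_fin]
    · left
      have hzx : z ≠ x := fun h => hzA (h ▸ hxA)
      rw [Finset.card_le_one]
      have key : ∀ i : Fin (r + 1), z ∈ S i → ∃ j : Fin r, i = j.succ ∧ z = y j := by
        intro i
        refine Fin.cases (fun h => absurd h hzA) (fun j h => ⟨j, rfl, (hmem j z hzx hzA).1 h⟩) i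
      intro i hi l hl
      obtain ⟨j, rfl, h1⟩ := key i (Finset.mem_filter.1 hi).2
      obtain ⟨j', rfl, h2⟩ := key l (Finset.mem_filter.1 hl).2
      rw [hyinj (h1.symm.trans h2)]

open Classical in
/-- the possible traces on a class -/
noncomputable def tr (P : Type) [Fintype P] (r : ℕ) : Finset (Finset P) :=
  univ.filter fun B => B = ∅ ∨ Fintype.card P < B.card + r

lemma mem_tr {P : Type} [Fintype P] {r : ℕ} {B : Finset P} :
    B ∈ tr P r ↔ B = ∅ ∨ Fintype.card P < B.card + r := by
  classical
  unfold tr
  simp only [Finset.mem_filter, Finset.mem_univ, true_and]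

lemma card_tr {P : Type} [Fintype P] {r N : ℕ} (hN : Fintype.card P = N) :
    (tr P r).card ≤ min (2 ^ N) (1 + ∑ i ∈ range r, N.choose i) := by
  classical
  apply le_min
  · refine (Finset.card_le_univ _).trans ?_
    rw [Fintype.card_finset, hN]
  · have hsub : tr P r ⊆ insert ∅ (((range r).biUnion fun i => powersetCard i univ).image
        fun B => Bᶜ) := by
      intro B hB
      rw [mem_tr] at hB
      rw [Finset.mem_insert]
      rcases hB with h | h
      · exact Or.inl h
      · right
        rw [Finset.mem_image]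
        refine ⟨Bᶜ, ?_, compl_compl B⟩
        rw [Finset.mem_biUnion]
        have h1 := Finset.card_add_card_compl B
        exact ⟨(Bᶜ).card, Finset.mem_range.2 (by omega), by
          rw [Finset.mem_powersetCard]; exact ⟨subset_univ _, rfl⟩⟩
    refine (Finset.card_le_card hsub).trans ((Finset.card_insert_le _ _).trans ?_)
    rw [add_comm]
    refine Nat.add_le_add_left (Finset.card_image_le.trans (Finset.card_biUnion_le.trans ?_)) _
    apply Finset.sum_le_sum
    intro i _
    rw [Finset.card_powersetCard, Finset.card_univ, hN]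

/-- the product bound -/
lemma prod_bound {r n : ℕ} {Y : Type} [Fintype Y] [DecidableEq Y] (c : Fin n → Y)
    (F : Finset (Finset (Fin n))) (g : Y → Prop) [DecidablePred g]
    (hF : ¬ HasSunflower (r + 1) n F)
    (hc : ∀ y, g y → ∀ i j, c i = y → c j = y → Inv (swap i j) F) :
    F.card ≤ ∏ y, (if g y then (min (2 ^ (univ.filter fun i => c i = y).card)
      (1 + ∑ i ∈ range r, (univ.filter fun i => c i = y).card.choose i)) else
      2 ^ (univ.filter fun i => c i = y).card) := by
  classical
  let S : ∀ y : Y, Finset (Finset {i // c i = y}) := fun y =>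
    if g y then tr {i // c i = y} r else univ
  have h1 : F.card ≤ (Fintype.piFinset S).card := by
    apply Finset.card_le_card_of_injOn
      (fun A y => (univ : Finset {i // c i = y}).filter fun i => i.1 ∈ A)
    · intro A hA
      rw [Finset.mem_coe, Fintype.mem_piFinset]
      intro y
      by_cases hy : g y
      · have e : S y = tr {i // c i = y} r := if_pos hy
        rw [e, mem_tr]
        by_cases hE : ∃ x, c x = y ∧ x ∈ A
        · right
          obtain ⟨x, hx, hxA⟩ := hE
          have h2 := core F hF (univ.filter fun i => c i = y) (fun i hi j hj =>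
            hc y hy i j (Finset.mem_filter.1 hi).2 (Finset.mem_filter.1 hj).2) A hA x
            (by rw [Finset.mem_filter]; exact ⟨mem_univ _, hx⟩) hxA
          have h3 := Finset.card_add_card_compl
            ((univ : Finset {i // c i = y}).filter fun i => i.1 ∈ A)
          have h4 : (((univ : Finset {i // c i = y}).filter fun i => i.1 ∈ A)ᶜ).card ≤
              ((univ.filter fun i => c i = y) \ A).card := by
            apply Finset.card_le_card_of_injOn (fun i => i.1)
            · intro i hi
              rw [Finset.mem_coe, Finset.mem_compl] at hi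
              rw [Finset.mem_coe, Finset.mem_sdiff]
              rw [Finset.mem_filter] at hi ⊢
              exact ⟨⟨mem_univ _, i.2⟩, fun h => hi ⟨mem_univ _, h⟩⟩
            · intro i _ j _ hij
              exact Subtype.ext hij
          show Fintype.card {i // c i = y} <
            ((univ : Finset {i // c i = y}).filter fun i => i.1 ∈ A).card + r
          omega
        · left
          rw [Finset.filter_eq_empty_iff]
          intro i _ hi
          exact hE ⟨i.1, i.2, hi⟩
      · have e : S y = univ := if_neg hy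
        rw [e]
        exact mem_univ _
    · intro A _ A' _ h
      ext z
      have h2 := congrFun h (c z)
      have h3 : (⟨z, rfl⟩ : {i // c i = c z}) ∈
          ((univ : Finset {i // c i = c z}).filter fun i => i.1 ∈ A) ↔
          (⟨z, rfl⟩ : {i // c i = c z}) ∈
          ((univ : Finset {i // c i = c z}).filter fun i => i.1 ∈ A') := by
        simp only at h2
        rw [h2]
      simpa using h3
  refine h1.trans ?_
  rw [Fintype.card_piFinset]
  apply Finset.prod_le_prod'
  intro y _
  have hN : Fintype.card {i // c i = y} = (univ.filter fun i => c i = y).card :=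
    Fintype.card_subtype _
  by_cases hy : g y
  · rw [if_pos hy]
    have e : S y = tr {i // c i = y} r := if_pos hy
    rw [e]
    exact card_tr hN
  · rw [if_neg hy]
    have e : S y = univ := if_neg hy
    rw [e, Finset.card_univ, Fintype.card_finset, hN]

/-- a bound for the polynomial factors -/
lemma exists_B (r : ℕ) {τ : ℝ} (hτ : 0 < τ) : ∃ B : ℝ, 16 ≤ B ∧
    ∀ N : ℕ, ((1 + ∑ i ∈ range r, N.choose i : ℕ) : ℝ) ≤ B * (1 + τ) ^ N := by
  obtain ⟨b, hb⟩ := (tendsto_pow_const_div_const_pow_of_one_lt r
    (show 1 < 1 + τ by linarith)).bddAbove_range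
  have hb' : ∀ m : ℕ, (m : ℝ) ^ r / (1 + τ) ^ m ≤ |b| := fun m =>
    (hb ⟨m, rfl⟩).trans (le_abs_self b)
  have hq : (0 : ℝ) ≤ ((r : ℝ) + 1) * |b| * (1 + τ) := by positivity
  refine ⟨16 + ((r : ℝ) + 1) * |b| * (1 + τ), by linarith, ?_⟩
  intro N
  have h1 : 1 + ∑ i ∈ range r, N.choose i ≤ (r + 1) * (N + 1) ^ r := by
    have h2 : ∑ i ∈ range r, N.choose i ≤ ∑ _i ∈ range r, (N + 1) ^ r := by
      apply Finset.sum_le_sum
      intro i hi
      rw [Finset.mem_range] at hi
      exact (Nat.choose_le_pow N i).trans ((Nat.pow_le_pow_left (Nat.le_succ N) i).trans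
        (Nat.pow_le_pow_right (Nat.succ_pos N) hi.le))
    rw [Finset.sum_const, Finset.card_range, smul_eq_mul] at h2
    have h3 : 1 ≤ (N + 1) ^ r := Nat.one_le_pow _ _ (Nat.succ_pos N)
    calc 1 + ∑ i ∈ range r, N.choose i ≤ (N + 1) ^ r + r * (N + 1) ^ r := Nat.add_le_add h3 h2
      _ = (r + 1) * (N + 1) ^ r := by ring
  have h4 := hb' (N + 1)
  have hp : (0 : ℝ) < (1 + τ) ^ N := by positivity
  have hp' : (0 : ℝ) < (1 + τ) ^ (N + 1) := by positivity
  rw [div_le_iff₀ hp'] at h4
  calc ((1 + ∑ i ∈ range r, N.choose i : ℕ) : ℝ) ≤ (((r + 1) * (N + 1) ^ r : ℕ) : ℝ) := by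
        exact_mod_cast h1
    _ = ((r : ℝ) + 1) * ((N + 1 : ℕ) : ℝ) ^ r := by push_cast; ring
    _ ≤ ((r : ℝ) + 1) * (|b| * (1 + τ) ^ (N + 1)) := mul_le_mul_of_nonneg_left h4 (by positivity)
    _ = ((r : ℝ) + 1) * |b| * (1 + τ) * (1 + τ) ^ N := by rw [pow_succ]; ring
    _ ≤ _ := mul_le_mul_of_nonneg_right (by linarith) hp.le

open Pool.Agent.W967.SK in
lemma large (r : ℕ) {ε : ℝ} (hε : 0 < ε) :
    ∃ δ : ℝ, 0 < δ ∧ ∃ n₀ : ℕ, ∀ n : ℕ, n₀ ≤ n → ∀ H : Subgroup (Perm (Fin n)),
      (H.index : ℝ) ≤ (n.factorial : ℝ) ^ δ → ∀ F : Finset (Finset (Fin n)),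
      ¬ HasSunflower (r + 1) n F → (∀ σ ∈ H, Inv σ F) → (F.card : ℝ) ≤ (1 + ε) ^ n := by
  classical
  set τ : ℝ := min 1 (ε / 3) with hτdef
  have hτ : 0 < τ := lt_min one_pos (by positivity)
  have hτ1 : τ ≤ 1 := min_le_left _ _
  have hτ2 : 3 * τ ≤ ε := by
    have h2 : τ ≤ ε / 3 := min_le_right _ _
    linarith
  obtain ⟨B, hB16, hB⟩ := exists_B r hτ
  have hlog : 0 < Real.log (1 + τ) := Real.log_pos (by linarith)
  have hlogB : 0 ≤ Real.log B := Real.log_nonneg (by linarith)
  set η : ℝ := Real.log (1 + τ) / (Real.log B + 1) with hη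
  have hη0 : 0 < η := by positivity
  have hηB : η * Real.log B ≤ Real.log (1 + τ) := by
    rw [hη, div_mul_eq_mul_div, div_le_iff₀ (by positivity)]
    nlinarith
  obtain ⟨δ, hδ, n₀, hn₀⟩ := few_classes' hη0
  refine ⟨δ, hδ, n₀, fun n hn H hind F hF hH => ?_⟩
  set st : (Fin n → Bool) → Finset (Fin n) := fun x => univ.filter fun i => x i = true with hst
  have hst_comp : ∀ (x : Fin n → Bool) (σ : Perm (Fin n)),
      st (x ∘ σ) = (st x).map (σ⁻¹).toEmbedding := by
    intro x σ
    ext z
    rw [Finset.mem_map_equiv]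
    have : (Equiv.symm (σ⁻¹)) z = σ z := rfl
    rw [this]
    simp [st]
  set a : (Fin n → Bool) → ℚ := fun x => if st x ∈ F then 1 else 0 with ha
  have hHL : H ≤ Line a := by
    intro σ hσ
    rw [mem_Line]
    refine ⟨1, one_ne_zero, fun x => ?_⟩
    rw [one_mul]
    have e1 : st (x ∘ σ) ∈ F ↔ st x ∈ F := by
      rw [hst_comp]
      constructor
      · intro hx
        have h2 := hH _ hσ _ hx
        have h3 : ((st x).map (σ⁻¹).toEmbedding).map σ.toEmbedding = st x := by
          ext z
          rw [Finset.mem_map_equiv, Finset.mem_map_equiv]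
          have : (Equiv.symm (σ⁻¹)) (σ.symm z) = z := by
            show σ (σ.symm z) = z
            exact σ.apply_symm_apply z
          rw [this]
        rwa [h3] at h2
      · intro hx
        exact hH _ (H.inv_mem hσ) _ hx
    simp only [ha, e1]
  have hidx : (Line a).index ≤ H.index := Nat.le_of_dvd
    (Nat.pos_of_ne_zero Subgroup.FiniteIndex.index_ne_zero) (Subgroup.index_dvd_of_le hHL)
  have hcls := hn₀ n hn (Fintype.card (Quotient (cls (Line a)))) (by
    refine le_trans ?_ hind
    exact_mod_cast (card_cls (Line a)).trans hidx)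
  -- the classes
  let cl : Fin n → Quotient (cls (Line a)) := fun i => Quotient.mk _ i
  have hcl : ∀ p i, cl p = cl i ↔ rel (Line a) p i := fun p i => Quotient.eq
  have hswap : ∀ y, 5 ≤ (univ.filter fun i => cl i = y).card →
      ∀ i j, cl i = y → cl j = y → Inv (swap i j) F := by
    intro y hy i j hi hj A hA
    have hi' : rel (Line a) y.out i := by
      rw [← hcl, hi]
      exact Quotient.out_eq y
    have hj' : rel (Line a) y.out j := by
      rw [← hcl, hj]
      exact Quotient.out_eq y
    have hset : (univ.filter fun q => rel (Line a) y.out q) = univ.filter fun i => cl i = y := by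
      ext q
      rw [Finset.mem_filter, Finset.mem_filter, ← hcl]
      have : cl y.out = y := Quotient.out_eq y
      rw [this]
      simp [eq_comm]
    have h2 : swap i j ∈ Exact a :=
      swap_mem_exact (by rw [hset]; exact hy) (by
        rw [hset, Fintype.card_bool]
        omega) hi' hj'
    have h3 := h2 (fun i => decide (i ∈ A))
    have h4 : st (fun i => decide (i ∈ A)) = A := by
      ext z
      simp [st]
    simp only [ha] at h3
    rw [hst_comp, h4, if_pos hA, swap_inv] at h3
    by_contra hcon
    rw [if_neg hcon] at h3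
    exact zero_ne_one h3
  have hprod := prod_bound cl F (fun y => 5 ≤ (univ.filter fun i => cl i = y).card) hF hswap
  have hsum : ∑ y, (univ.filter fun i => cl i = y).card = n := by
    have h2 := Finset.card_eq_sum_card_fiberwise (s := (univ : Finset (Fin n)))
      (t := (univ : Finset (Quotient (cls (Line a))))) (f := cl) (fun i _ => by simp)
    rw [Finset.card_univ, Fintype.card_fin] at h2
    exact h2.symm
  have hle : (F.card : ℝ) ≤ B ^ Fintype.card (Quotient (cls (Line a))) * (1 + τ) ^ n := by
    calc (F.card : ℝ) ≤ ((∏ y, (if 5 ≤ (univ.filter fun i => cl i = y).card then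
          (min (2 ^ (univ.filter fun i => cl i = y).card)
          (1 + ∑ i ∈ range r, (univ.filter fun i => cl i = y).card.choose i)) else
          2 ^ (univ.filter fun i => cl i = y).card) : ℕ) : ℝ) := by exact_mod_cast hprod
      _ = ∏ y, (((if 5 ≤ (univ.filter fun i => cl i = y).card then
          (min (2 ^ (univ.filter fun i => cl i = y).card)
          (1 + ∑ i ∈ range r, (univ.filter fun i => cl i = y).card.choose i)) else
          2 ^ (univ.filter fun i => cl i = y).card) : ℕ) : ℝ) := by push_cast; rfl
      _ ≤ ∏ y, B * (1 + τ) ^ (univ.filter fun i => cl i = y).card := by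
        apply Finset.prod_le_prod (fun y _ => Nat.cast_nonneg _)
        intro y _
        by_cases hy : 5 ≤ (univ.filter fun i => cl i = y).card
        · rw [if_pos hy]
          refine le_trans ?_ (hB _)
          exact_mod_cast min_le_right _ _
        · rw [if_neg hy]
          have h2 : (2 : ℕ) ^ (univ.filter fun i => cl i = y).card ≤ 16 := by
            calc (2 : ℕ) ^ (univ.filter fun i => cl i = y).card ≤ 2 ^ 4 :=
                  Nat.pow_le_pow_right (by norm_num) (by omega)
              _ = 16 := by norm_num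
          have h3 : (((2 : ℕ) ^ (univ.filter fun i => cl i = y).card : ℕ) : ℝ) ≤ 16 := by
            exact_mod_cast h2
          calc (((2 : ℕ) ^ (univ.filter fun i => cl i = y).card : ℕ) : ℝ) ≤ B := h3.trans hB16
            _ = B * 1 := (mul_one B).symm
            _ ≤ _ := mul_le_mul_of_nonneg_left (one_le_pow₀ (by linarith)) (by linarith)
      _ = _ := by
        rw [Finset.prod_mul_distrib, Finset.prod_const, Finset.card_univ,
          Finset.prod_pow_eq_pow_sum, hsum]
  have hBpow : B ^ Fintype.card (Quotient (cls (Line a))) ≤ (1 + τ) ^ n := by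
    have hB0 : 0 < B := by linarith
    rw [← Real.exp_log (pow_pos hB0 _), ← Real.exp_log (show 0 < (1 + τ) ^ n by positivity),
      Real.exp_le_exp, Real.log_pow, Real.log_pow]
    calc (Fintype.card (Quotient (cls (Line a))) : ℝ) * Real.log B ≤ (η * n) * Real.log B :=
          mul_le_mul_of_nonneg_right hcls hlogB
      _ = n * (η * Real.log B) := by ring
      _ ≤ n * Real.log (1 + τ) := mul_le_mul_of_nonneg_left hηB (Nat.cast_nonneg _)
  calc (F.card : ℝ) ≤ (1 + τ) ^ n * (1 + τ) ^ n :=
        hle.trans (mul_le_mul_of_nonneg_right hBpow (by positivity))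
    _ = ((1 + τ) * (1 + τ)) ^ n := by rw [← mul_pow]
    _ ≤ (1 + ε) ^ n := by
      apply pow_le_pow_left₀ (by positivity)
      nlinarith

/-- Let `r ≥ 2` and let `F` be a family of subsets of `[n]` without a sunflower of size `r`.
(1) If `F` is invariant under the permutations that preserve the classes of a partition of `[n]`
(the fibres of `c`), then `|F|` is at most the product over the classes of
`min (2 ^ N) (1 + ∑_{i ≤ r - 2} (N choose i))`, where `N` is the number of elements of the class.
(2) For every `ε > 0` there are `δ > 0` and `n₀`, depending only on `ε` and `r`, such that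
`|F| ≤ (1 + ε) ^ n` if `n ≥ n₀` and `F` is invariant under a group `H` of permutations of `[n]`
whose index in the symmetric group is at most `(n!) ^ δ`. -/
theorem result (r : ℕ) (hr : 2 ≤ r) :
    (∀ (n : ℕ) (F : Finset (Finset (Fin n))) (c : Fin n → Fin n), ¬ HasSunflower r n F →
      (∀ σ : Perm (Fin n), (∀ i, c (σ i) = c i) → Inv σ F) →
      F.card ≤ ∏ y, min (2 ^ (univ.filter fun i => c i = y).card)
        (1 + ∑ i ∈ range (r - 1), (univ.filter fun i => c i = y).card.choose i)) ∧
    ∀ ε : ℝ, 0 < ε → ∃ δ : ℝ, 0 < δ ∧ ∃ n₀ : ℕ, ∀ n : ℕ, n₀ ≤ n →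
      ∀ H : Subgroup (Perm (Fin n)), (H.index : ℝ) ≤ (n.factorial : ℝ) ^ δ →
      ∀ F : Finset (Finset (Fin n)), ¬ HasSunflower r n F → (∀ σ ∈ H, Inv σ F) →
      (F.card : ℝ) ≤ (1 + ε) ^ n := by
  obtain ⟨r, rfl⟩ : ∃ s, r = s + 1 := ⟨r - 1, by omega⟩
  rw [Nat.add_sub_cancel]
  refine ⟨fun n F c hF hc => ?_, fun ε hε => large r hε⟩
  have h := prod_bound c F (fun _ => True) hF (fun y _ i j hi hj => hc (swap i j) (fun z => by
    rw [swap_apply_def]
    split_ifs with e1 e2
    · rw [e1, hi, hj]
    · rw [e2, hi, hj]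
    · rfl))
  simpa using h

end Pool.Agent.Results.MP_cfd6ce_co.LargeSymmetry
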